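import Mathlib

/-! Closure toolkit for context-free languages (as predicates on lists). -/

namespace Pool.Agent.Lib.helper29

inductive Gen {α N : Type} (R : Set (N × List (Symbol α N))) : List (Symbol α N) → List α → Prop
  | nil : Gen R [] []
  | term (a : α) (β : List (Symbol α N)) (y : List α) :
      Gen R β y → Gen R (Symbol.terminal a :: β) (a :: y)
  | nt (A : N) (γ β : List (Symbol α N)) (y1 y2 : List α) :
      (A, γ) ∈ R → Gen R γ y1 → Gen R β y2 → Gen R (Symbol.nonterminal A :: β) (y1 ++ y2)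

section gen
variable {α N : Type} {R : Set (N × List (Symbol α N))}

lemma Gen.append {β1 β2 : List (Symbol α N)} {y1 y2 : List α} (h1 : Gen R β1 y1)
    (h2 : Gen R β2 y2) : Gen R (β1 ++ β2) (y1 ++ y2) := by
  induction h1 with
  | nil => simpa using h2
  | term a β y _ ih => exact Gen.term a _ _ ih
  | nt A γ β z1 z2 hr h _ _ ih =>
    rw [List.append_assoc]
    exact Gen.nt A _ _ _ _ hr h ih

lemma Gen.split {β1 β2 : List (Symbol α N)} {y : List α} (h : Gen R (β1 ++ β2) y) :
    ∃ y1 y2, y = y1 ++ y2 ∧ Gen R β1 y1 ∧ Gen R β2 y2 := by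
  induction β1 generalizing y with
  | nil => exact ⟨[], y, rfl, Gen.nil, h⟩
  | cons X β1 ih =>
    rw [List.cons_append] at h
    cases h with
    | term a β y h =>
      obtain ⟨y1, y2, rfl, h1, h2⟩ := ih h
      exact ⟨a :: y1, y2, rfl, Gen.term a _ _ h1, h2⟩
    | nt A γ β z1 z2 hr h h' =>
      obtain ⟨y1, y2, rfl, h1, h2⟩ := ih h'
      exact ⟨z1 ++ y1, y2, by simp, Gen.nt A _ _ _ _ hr h h1, h2⟩

lemma Gen.of_nil {y : List α} (h : Gen R [] y) : y = [] := by cases h; rfl

lemma Gen.one {A : N} {γ : List (Symbol α N)} {y : List α} (hr : (A, γ) ∈ R) (h : Gen R γ y) :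
    Gen R [Symbol.nonterminal A] y := by
  simpa using Gen.nt A γ [] y [] hr h Gen.nil

lemma gen_one_iff {A : N} {y : List α} :
    Gen R [Symbol.nonterminal A] y ↔ ∃ γ, (A, γ) ∈ R ∧ Gen R γ y := by
  constructor
  · intro h
    cases h with
    | nt A γ β z1 z2 hr h h' => rw [h'.of_nil]; exact ⟨γ, hr, by simpa using h⟩
  · rintro ⟨γ, hr, h⟩; exact h.one hr

lemma gen_terminals (w : List α) : Gen R (w.map Symbol.terminal) w := by
  induction w with
  | nil => exact Gen.nil
  | cons a w ih => exact Gen.term a _ _ ih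

lemma Gen.of_terminals {w y : List α} (h : Gen R (w.map Symbol.terminal) y) : y = w := by
  induction w generalizing y with
  | nil => exact h.of_nil
  | cons a w ih =>
    rw [List.map_cons] at h
    cases h with
    | term a β y h => rw [ih h]

end gen

/-- Context-free predicate on words. -/
def CF {α : Type} (P : List α → Prop) : Prop :=
  ∃ (N : Type) (R : Set (N × List (Symbol α N))) (S : N), R.Finite ∧
    ∀ w, P w ↔ Gen R [Symbol.nonterminal S] w

theorem CF.isContextFree {α : Type} {P : List α → Prop} (h : CF P) :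
    Language.IsContextFree {w | P w} := by
  classical
  obtain ⟨N, R, S, hR, hP⟩ := h
  let g : ContextFreeGrammar α :=
    ⟨N, S, hR.toFinset.image (fun r => (⟨r.1, r.2⟩ : ContextFreeRule α N))⟩
  have hmem : ∀ r : ContextFreeRule α N, r ∈ g.rules ↔ (r.input, r.output) ∈ R := by
    intro r
    simp only [g, Finset.mem_image, Set.Finite.mem_toFinset]
    constructor
    · rintro ⟨x, hx, rfl⟩; exact hx
    · intro h; exact ⟨_, h, rfl⟩
  have h1 : ∀ (β : List (Symbol α N)) (w : List α), g.Derives β (w.map Symbol.terminal) →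
      Gen R β w := by
    intro β w h
    induction h using Relation.ReflTransGen.head_induction_on with
    | refl => exact gen_terminals w
    | head hp _ ih =>
      obtain ⟨r, hr, hrw⟩ := hp
      obtain ⟨p, q, rfl, rfl⟩ := hrw.exists_parts
      obtain ⟨y1, y3, rfl, h12, h3⟩ := ih.split
      obtain ⟨y1, y2, rfl, h1, h2⟩ := h12.split
      exact Gen.append (Gen.append h1 (h2.one ((hmem r).1 hr))) h3
  have h2 : ∀ (β : List (Symbol α N)) (w : List α), Gen R β w →
      g.Derives β (w.map Symbol.terminal) := by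
    intro β w h
    induction h with
    | nil => exact Relation.ReflTransGen.refl
    | term a β y _ ih => exact ih.append_left [Symbol.terminal a]
    | nt A γ β y1 y2 hr _ _ ih1 ih2 =>
      have h1 : g.Produces (Symbol.nonterminal A :: β) (γ ++ β) :=
        ⟨⟨A, γ⟩, (hmem _).2 hr, ContextFreeRule.Rewrites.head β⟩
      rw [List.map_append]
      exact h1.trans_derives ((ih1.append_right β).trans (ih2.append_left _))
  refine ⟨g, ?_⟩
  ext w
  rw [ContextFreeGrammar.mem_language_iff]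
  change _ ↔ P w
  rw [hP]
  exact ⟨h1 _ _, h2 _ _⟩

lemma CF.congr {α : Type} {P Q : List α → Prop} (h : CF P) (e : ∀ w, P w ↔ Q w) : CF Q := by
  obtain ⟨N, R, S, hR, hP⟩ := h
  exact ⟨N, R, S, hR, fun w => (e w).symm.trans (hP w)⟩

lemma CF.of_finite {α : Type} {P : List α → Prop} (h : {w | P w}.Finite) : CF P := by
  refine ⟨Unit, (fun w : List α => ((), w.map Symbol.terminal)) '' {w | P w}, (), h.image _, ?_⟩
  intro w
  rw [gen_one_iff]
  constructor
  · intro hw; exact ⟨_, ⟨w, hw, rfl⟩, gen_terminals w⟩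
  · rintro ⟨γ, ⟨v, hv, e⟩, hg⟩
    simp only [Prod.mk.injEq, true_and] at e
    subst e
    rw [hg.of_terminals]; exact hv

lemma CF.single {α : Type} (v : List α) : CF (fun w => w = v) :=
  CF.of_finite (by simp)

lemma CF.reverse {α : Type} {P : List α → Prop} (h : CF P) : CF (fun w => P w.reverse) := by
  obtain ⟨N, R, S, hR, hP⟩ := h
  have key : ∀ (R : Set (N × List (Symbol α N))) β w, Gen R β w →
      Gen ((fun r => (r.1, r.2.reverse)) '' R) β.reverse w.reverse := by
    intro R β w h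
    induction h with
    | nil => exact Gen.nil
    | term a β y _ ih =>
      rw [List.reverse_cons, List.reverse_cons]
      exact ih.append (Gen.term a _ _ Gen.nil)
    | nt A γ β y1 y2 hr _ _ ih1 ih2 =>
      rw [List.reverse_cons, List.reverse_append]
      exact ih2.append (ih1.one ⟨_, hr, rfl⟩)
  refine ⟨N, (fun r => (r.1, r.2.reverse)) '' R, S, hR.image _, fun w => ?_⟩
  beta_reduce
  rw [hP]
  constructor
  · intro h; simpa using key _ _ _ h
  · intro h
    have := key _ _ _ h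
    simpa [Set.image_image] using this

/-- Extended systems: right-hand sides are context-free languages. -/
inductive GenE {α N : Type} (rhs : N → List (α ⊕ N) → Prop) : List (α ⊕ N) → List α → Prop
  | nil : GenE rhs [] []
  | term (a : α) (β : List (α ⊕ N)) (y : List α) :
      GenE rhs β y → GenE rhs (Sum.inl a :: β) (a :: y)
  | nt (A : N) (γ β : List (α ⊕ N)) (y1 y2 : List α) :
      rhs A γ → GenE rhs γ y1 → GenE rhs β y2 → GenE rhs (Sum.inr A :: β) (y1 ++ y2)

section gene
variable {α N : Type} {rhs : N → List (α ⊕ N) → Prop}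

lemma GenE.append {β1 β2 : List (α ⊕ N)} {y1 y2 : List α} (h1 : GenE rhs β1 y1)
    (h2 : GenE rhs β2 y2) : GenE rhs (β1 ++ β2) (y1 ++ y2) := by
  induction h1 with
  | nil => simpa using h2
  | term a β y _ ih => exact GenE.term a _ _ ih
  | nt A γ β z1 z2 hr h _ _ ih =>
    rw [List.append_assoc]
    exact GenE.nt A _ _ _ _ hr h ih

lemma GenE.split {β1 β2 : List (α ⊕ N)} {y : List α} (h : GenE rhs (β1 ++ β2) y) :
    ∃ y1 y2, y = y1 ++ y2 ∧ GenE rhs β1 y1 ∧ GenE rhs β2 y2 := by
  induction β1 generalizing y with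
  | nil => exact ⟨[], y, rfl, GenE.nil, h⟩
  | cons X β1 ih =>
    rw [List.cons_append] at h
    cases h with
    | term a β y h =>
      obtain ⟨y1, y2, rfl, h1, h2⟩ := ih h
      exact ⟨a :: y1, y2, rfl, GenE.term a _ _ h1, h2⟩
    | nt A γ β z1 z2 hr h h' =>
      obtain ⟨y1, y2, rfl, h1, h2⟩ := ih h'
      exact ⟨z1 ++ y1, y2, by simp, GenE.nt A _ _ _ _ hr h h1, h2⟩

lemma GenE.of_nil {y : List α} (h : GenE rhs [] y) : y = [] := by cases h; rfl

lemma GenE.one {A : N} {γ : List (α ⊕ N)} {y : List α} (hr : rhs A γ) (h : GenE rhs γ y) :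
    GenE rhs [Sum.inr A] y := by
  simpa using GenE.nt A γ [] y [] hr h GenE.nil

lemma genE_one_iff {A : N} {y : List α} :
    GenE rhs [Sum.inr A] y ↔ ∃ γ, rhs A γ ∧ GenE rhs γ y := by
  constructor
  · intro h
    cases h with
    | nt A γ β z1 z2 hr h h' => rw [h'.of_nil]; exact ⟨γ, hr, by simpa using h⟩
  · rintro ⟨γ, hr, h⟩; exact h.one hr

lemma genE_terminals (w : List α) : GenE rhs (w.map Sum.inl) w := by
  induction w with
  | nil => exact GenE.nil
  | cons a w ih => exact GenE.term a _ _ ih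

lemma GenE.of_terminals {w y : List α} (h : GenE rhs (w.map Sum.inl) y) : y = w := by
  induction w generalizing y with
  | nil => exact h.of_nil
  | cons a w ih =>
    rw [List.map_cons] at h
    cases h with
    | term a β y h => rw [ih h]

end gene

section ext
variable {α N : Type} {γ : N → Type} (j : ∀ A, γ A → α ⊕ N) {M : N → Type}

def cvE : α ⊕ N → Symbol α (N ⊕ (Σ A, M A))
  | Sum.inl a => Symbol.terminal a
  | Sum.inr C => Symbol.nonterminal (Sum.inl C)

def cvS (A : N) : Symbol (γ A) (M A) → Symbol α (N ⊕ (Σ A, M A))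
  | Symbol.terminal c => cvE (j A c)
  | Symbol.nonterminal B => Symbol.nonterminal (Sum.inr ⟨A, B⟩)

inductive ExpE (R : ∀ A, Set (M A × List (Symbol (γ A) (M A)))) :
    List (Symbol α (N ⊕ (Σ A, M A))) → List (α ⊕ N) → Prop
  | nil : ExpE R [] []
  | sym (c : α ⊕ N) (δ v) : ExpE R δ v → ExpE R (cvE c :: δ) (c :: v)
  | nt (A : N) (B : M A) (δ v) (v1 : List (γ A)) : Gen (R A) [Symbol.nonterminal B] v1 →
      ExpE R δ v → ExpE R (Symbol.nonterminal (Sum.inr ⟨A, B⟩) :: δ) (v1.map (j A) ++ v)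

lemma cvE_inj {c c' : α ⊕ N} (h : (cvE c : Symbol α (N ⊕ (Σ A, M A))) = cvE c') : c = c' := by
  cases c <;> cases c' <;> simp_all [cvE]

lemma ExpE.of_map {R : ∀ A, Set (M A × List (Symbol (γ A) (M A)))} {A : N}
    {β : List (Symbol (γ A) (M A))} {v} (h : ExpE j R (β.map (cvS j A)) v) :
    ∃ v1, Gen (R A) β v1 ∧ v = v1.map (j A) := by
  induction β generalizing v with
  | nil => cases h; exact ⟨[], Gen.nil, rfl⟩
  | cons X β ih =>
    rw [List.map_cons] at h
    generalize hX : cvS j A X = Y at h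
    cases h with
    | sym c δ v h =>
      obtain ⟨v1, h1, rfl⟩ := ih h
      cases X with
      | terminal c' =>
        have : j A c' = c := cvE_inj hX
        exact ⟨c' :: v1, Gen.term _ _ _ h1, by simp [this]⟩
      | nonterminal B => cases c <;> simp [cvS, cvE] at hX
    | nt A' B' δ v v0 h0 h =>
      obtain ⟨v1, h1, rfl⟩ := ih h
      cases X with
      | terminal c' =>
        simp only [cvS] at hX
        generalize j A c' = c at hX
        cases c <;> simp [cvE] at hX
      | nonterminal B =>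
        simp only [cvS, Symbol.nonterminal.injEq, Sum.inr.injEq, Sigma.mk.injEq] at hX
        obtain ⟨rfl, hB⟩ := hX
        obtain rfl := eq_of_heq hB
        exact ⟨v0 ++ v1, Gen.append h0 h1, by simp⟩

end ext

theorem cf_ext {α N : Type} {γ : N → Type} (j : ∀ A, γ A → α ⊕ N)
    (P : ∀ A, List (γ A) → Prop) (hP : ∀ A, CF (P A)) (hfin : {A | ∃ v, P A v}.Finite) (S : N) :
    CF (GenE (fun A β => ∃ v, P A v ∧ β = v.map (j A)) [Sum.inr S]) := by
  choose M R S0 hR hG using hP
  set rhs : N → List (α ⊕ N) → Prop := fun A β => ∃ v, P A v ∧ β = v.map (j A) with hrhs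
  let R' : Set ((N ⊕ (Σ A, M A)) × List (Symbol α (N ⊕ (Σ A, M A)))) :=
    ⋃ A ∈ {A | ∃ v, P A v}, insert (Sum.inl A, [Symbol.nonterminal (Sum.inr ⟨A, S0 A⟩)])
      ((fun r => (Sum.inr ⟨A, r.1⟩, r.2.map (cvS j A))) '' R A)
  have hR' : R'.Finite := hfin.biUnion (fun A _ => ((hR A).image _).insert _)
  have h1 : ∀ δ w, Gen R' δ w → ∃ v, ExpE j R δ v ∧ GenE rhs v w := by
    intro δ w h
    induction h with
    | nil => exact ⟨[], ExpE.nil, GenE.nil⟩
    | term a β y _ ih =>
      obtain ⟨v, h1, h2⟩ := ih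
      exact ⟨Sum.inl a :: v, ExpE.sym (Sum.inl a) _ _ h1, GenE.term a _ _ h2⟩
    | nt X δ β y1 y2 hr _ _ ih1 ih2 =>
      obtain ⟨v1, e1, g1⟩ := ih1
      obtain ⟨v2, e2, g2⟩ := ih2
      simp only [R', Set.mem_iUnion, Set.mem_insert_iff, Set.mem_image, Prod.mk.injEq] at hr
      obtain ⟨A, -, ⟨rfl, rfl⟩ | ⟨r, hr, rfl, rfl⟩⟩ := hr
      · obtain ⟨v0, h0, rfl⟩ := ExpE.of_map j (A := A) (β := [Symbol.nonterminal (S0 A)]) e1
        exact ⟨Sum.inr A :: v2, ExpE.sym (Sum.inr A) _ _ e2,
          GenE.nt A _ _ _ _ ⟨v0, (hG A v0).2 h0, rfl⟩ g1 g2⟩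
      · obtain ⟨v0, h0, rfl⟩ := ExpE.of_map j e1
        exact ⟨_, ExpE.nt A r.1 _ _ v0 (h0.one hr) e2, g1.append g2⟩
  have h3 : ∀ A, (∃ v, P A v) → ∀ δ v, Gen (R A) δ v → ∀ y,
      Gen R' ((v.map (j A)).map cvE) y → Gen R' (δ.map (cvS j A)) y := by
    intro A hA δ v h
    induction h with
    | nil => intro y hy; exact hy
    | term c β v _ ih =>
      intro y hy
      obtain ⟨y1, y2, rfl, g1, g2⟩ := Gen.split (β1 := [cvE (j A c)]) hy
      exact Gen.append (β1 := [cvE (j A c)]) g1 (ih _ g2)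
    | nt B δ β v1 v2 hr _ _ ih1 ih2 =>
      intro y hy
      rw [List.map_append, List.map_append] at hy
      obtain ⟨y1, y2, rfl, g1, g2⟩ := Gen.split hy
      refine Gen.nt _ (δ.map (cvS j A)) _ _ _ ?_ (ih1 _ g1) (ih2 _ g2)
      simp only [R', Set.mem_iUnion]
      exact ⟨A, hA, Or.inr ⟨_, hr, rfl⟩⟩
  have h2 : ∀ v w, GenE rhs v w → Gen R' (v.map cvE) w := by
    intro v w h
    induction h with
    | nil => exact Gen.nil
    | term a β y _ ih => exact Gen.term a _ _ ih
    | nt A δ β y1 y2 hr _ _ ih1 ih2 =>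
      obtain ⟨v0, h0, rfl⟩ := hr
      refine Gen.nt (Sum.inl A) [Symbol.nonterminal (Sum.inr ⟨A, S0 A⟩)] _ _ _ ?_ ?_ ih2
      · simp only [R', Set.mem_iUnion]
        exact ⟨A, ⟨v0, h0⟩, Or.inl rfl⟩
      · exact h3 A ⟨v0, h0⟩ _ _ ((hG A v0).1 h0) _ ih1
  refine ⟨_, R', Sum.inl S, hR', fun w => ⟨fun h => h2 _ _ h, fun h => ?_⟩⟩
  obtain ⟨v, e, g⟩ := h1 _ _ h
  generalize hδ : [Symbol.nonterminal (Sum.inl S : N ⊕ (Σ A, M A))] = δ at e
  cases e with
  | nil => simp at hδ
  | sym c δ v e =>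
    simp only [List.cons.injEq] at hδ
    obtain ⟨hc, rfl⟩ := hδ
    cases e
    obtain rfl : Sum.inr S = c := cvE_inj hc
    exact g
  | nt => simp at hδ

lemma CF.map {α β : Type} {P : List α → Prop} (h : CF P) (f : α → β) :
    CF (fun w => ∃ v, P v ∧ w = v.map f) := by
  refine (cf_ext (N := Unit) (γ := fun _ => α) (fun _ a => Sum.inl (f a)) (fun _ => P)
    (fun _ => h) (Set.toFinite _) ()).congr (fun w => ?_)
  rw [genE_one_iff]
  constructor
  · rintro ⟨_, ⟨v, hv, rfl⟩, g⟩
    refine ⟨v, hv, GenE.of_terminals (by simpa [Function.comp_def] using g)⟩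
  · rintro ⟨v, hv, rfl⟩
    exact ⟨_, ⟨v, hv, rfl⟩, by simpa [Function.comp_def] using genE_terminals (v.map f)⟩

/-- Plain form of the extended system theorem. -/
theorem cf_genE {α N : Type} (rhs : N → List (α ⊕ N) → Prop) (hP : ∀ A, CF (rhs A))
    (hfin : {A | ∃ v, rhs A v}.Finite) (S : N) : CF (GenE rhs [Sum.inr S]) := by
  have := cf_ext (γ := fun _ => α ⊕ N) (fun _ => id) rhs hP hfin S
  simpa using this

/-- Substitution of languages for letters. -/
inductive Sub {α β : Type} (σ : β → List α → Prop) : List β → List α → Prop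
  | nil : Sub σ [] []
  | cons (b : β) (v : List β) (x w : List α) : σ b x → Sub σ v w → Sub σ (b :: v) (x ++ w)

lemma Sub.append {α β : Type} {σ : β → List α → Prop} {v1 v2 : List β} {w1 w2 : List α}
    (h1 : Sub σ v1 w1) (h2 : Sub σ v2 w2) : Sub σ (v1 ++ v2) (w1 ++ w2) := by
  induction h1 with
  | nil => exact h2
  | cons b v x w hx _ ih => rw [List.append_assoc]; exact Sub.cons b _ x _ hx ih

lemma Sub.split {α β : Type} {σ : β → List α → Prop} {v1 v2 : List β} {w : List α}
    (h : Sub σ (v1 ++ v2) w) : ∃ w1 w2, w = w1 ++ w2 ∧ Sub σ v1 w1 ∧ Sub σ v2 w2 := by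
  induction v1 generalizing w with
  | nil => exact ⟨[], w, rfl, Sub.nil, h⟩
  | cons b v1 ih =>
    rw [List.cons_append] at h
    cases h with
    | cons b v x w hx h =>
      obtain ⟨w1, w2, rfl, h1, h2⟩ := ih h
      exact ⟨x ++ w1, w2, by simp, Sub.cons b _ _ _ hx h1, h2⟩

lemma sub_nil_iff {α β : Type} {σ : β → List α → Prop} {w : List α} : Sub σ [] w ↔ w = [] :=
  ⟨fun h => by cases h; rfl, fun h => h ▸ Sub.nil⟩

lemma sub_cons_iff {α β : Type} {σ : β → List α → Prop} {b : β} {v : List β} {w : List α} :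
    Sub σ (b :: v) w ↔ ∃ x y, σ b x ∧ Sub σ v y ∧ w = x ++ y :=
  ⟨fun h => by cases h with | cons b v x w hx h => exact ⟨x, w, hx, h, rfl⟩,
    fun ⟨x, y, h1, h2, e⟩ => e ▸ Sub.cons b v x y h1 h2⟩

theorem CF.subst {α β : Type} [Finite β] {P : List β → Prop} (h : CF P)
    {σ : β → List α → Prop} (hσ : ∀ b, CF (σ b)) : CF (fun w => ∃ v, P v ∧ Sub σ v w) := by
  let rhs : Option β → List (α ⊕ Option β) → Prop := fun A =>
    match A with
    | none => fun δ => ∃ v, P v ∧ δ = v.map (fun b => Sum.inr (some b))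
    | some b => fun δ => ∃ x, σ b x ∧ δ = x.map Sum.inl
  have hr : ∀ A, CF (rhs A) := by
    intro A
    cases A with
    | none => exact h.map _
    | some b => exact (hσ b).map _
  have key : ∀ (v : List β) w, GenE rhs (v.map (fun b => Sum.inr (some b))) w ↔ Sub σ v w := by
    intro v
    induction v with
    | nil => intro w; exact ⟨fun h => h.of_nil ▸ Sub.nil, fun h => by cases h; exact GenE.nil⟩
    | cons b v ih =>
      intro w
      rw [List.map_cons]
      constructor
      · intro h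
        cases h with
        | nt A γ β y1 y2 hr g1 g2 =>
          obtain ⟨x, hx, rfl⟩ := hr
          rw [g1.of_terminals]
          exact Sub.cons b v x y2 hx ((ih _).1 g2)
      · intro h
        cases h with
        | cons b v x w hx h =>
          exact GenE.nt _ _ _ _ _ ⟨x, hx, rfl⟩ (genE_terminals x) ((ih _).2 h)
  refine (cf_genE rhs hr (Set.toFinite _) none).congr (fun w => ?_)
  rw [genE_one_iff]
  constructor
  · rintro ⟨_, ⟨v, hv, rfl⟩, g⟩; exact ⟨v, hv, (key _ _).1 g⟩
  · rintro ⟨v, hv, g⟩; exact ⟨_, ⟨v, hv, rfl⟩, (key _ _).2 g⟩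

lemma CF.append {α : Type} {P Q : List α → Prop} (hP : CF P) (hQ : CF Q) :
    CF (fun w => ∃ x y, P x ∧ Q y ∧ w = x ++ y) := by
  refine ((CF.single [true, false]).subst (σ := fun b => if b then P else Q)
    (fun b => by cases b <;> simpa)).congr (fun w => ?_)
  simp only [exists_eq_left, sub_cons_iff, sub_nil_iff]
  constructor
  · rintro ⟨x, _, hx, ⟨y, _, hy, rfl, rfl⟩, rfl⟩; exact ⟨x, y, hx, hy, by simp⟩
  · rintro ⟨x, y, hx, hy, rfl⟩; exact ⟨x, y, hx, ⟨y, [], hy, rfl, by simp⟩, rfl⟩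

lemma CF.exists {α ι : Type} [Finite ι] {P : ι → List α → Prop} (h : ∀ i, CF (P i)) :
    CF (fun w => ∃ i, P i w) := by
  refine ((CF.of_finite (P := fun v : List ι => ∃ i, v = [i]) ?_).subst h).congr (fun w => ?_)
  · exact (Set.finite_range (fun i : ι => [i])).subset (fun v ⟨i, hi⟩ => ⟨i, hi.symm⟩)
  · constructor
    · rintro ⟨_, ⟨i, rfl⟩, hs⟩
      simp only [sub_cons_iff, sub_nil_iff] at hs
      obtain ⟨x, _, hx, rfl, rfl⟩ := hs
      exact ⟨i, by simpa using hx⟩
    · rintro ⟨i, hi⟩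
      exact ⟨[i], ⟨i, rfl⟩, by simpa using Sub.cons i [] w [] hi Sub.nil⟩

lemma CF.exists_mem {α ι : Type} {s : Set ι} (hs : s.Finite) {P : ι → List α → Prop}
    (h : ∀ i ∈ s, CF (P i)) : CF (fun w => ∃ i ∈ s, P i w) := by
  have := hs.to_subtype
  refine (CF.exists (ι := s) (P := fun i => P i.1) (fun i => h i.1 i.2)).congr (fun w => ?_)
  simp

lemma CF.or {α : Type} {P Q : List α → Prop} (hP : CF P) (hQ : CF Q) :
    CF (fun w => P w ∨ Q w) := by
  refine (CF.exists (P := fun b : Bool => if b then P else Q)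
    (fun b => by cases b <;> simpa)).congr (fun w => ?_)
  simp [or_comm]

lemma CF.empty {α : Type} : CF (fun _ : List α => False) := CF.of_finite (by simp)

lemma CF.and_const {α : Type} {P : List α → Prop} (p : Prop) (h : p → CF P) :
    CF (fun w => p ∧ P w) := by
  by_cases hp : p
  · exact (h hp).congr (fun w => by simp [hp])
  · exact CF.empty.congr (fun w => by simp [hp])

lemma CF.flatMap {α β : Type} [Finite α] {P : List α → Prop} (h : CF P) (f : α → List β) :
    CF (fun w => ∃ v, P v ∧ w = v.flatMap f) := by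
  refine (h.subst (σ := fun a x => x = f a) (fun a => CF.single _)).congr (fun w => ?_)
  refine exists_congr (fun v => and_congr_right (fun h0 => ?_))
  clear h0
  induction v generalizing w with
  | nil => simp [sub_nil_iff]
  | cons a v ih =>
    simp only [sub_cons_iff, List.flatMap_cons, exists_and_left, exists_eq_left]
    constructor
    · rintro ⟨y, hy, rfl⟩; rw [(ih _).1 hy]
    · rintro rfl; exact ⟨_, (ih _).2 rfl, rfl⟩

/-! ### Intersection with finite automata -/

def Reg {α : Type} (P : List α → Prop) : Prop :=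
  ∃ (Q : Type) (_ : Finite Q) (δ : Q → α → Q) (q0 : Q) (F : Q → Prop),
    ∀ w, P w ↔ F (w.foldl δ q0)

inductive Ann {α N Q : Type} (δ : Q → α → Q) :
    Q → List (Symbol α N) → Q → List (Symbol α (Option (Q × N × Q))) → Prop
  | nil (p : Q) : Ann δ p [] p []
  | term (p q : Q) (a : α) (β β') : Ann δ (δ p a) β q β' →
      Ann δ p (Symbol.terminal a :: β) q (Symbol.terminal a :: β')
  | nt (p r q : Q) (B : N) (β β') : Ann δ r β q β' →
      Ann δ p (Symbol.nonterminal B :: β) q (Symbol.nonterminal (some (p, B, r)) :: β')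

lemma ann_finite {α N Q : Type} [Finite Q] (δ : Q → α → Q) (β : List (Symbol α N)) (p q : Q) :
    {β' | Ann δ p β q β'}.Finite := by
  induction β generalizing p with
  | nil => exact (Set.finite_singleton []).subset (fun β' h => by cases h; rfl)
  | cons X β ih =>
    cases X with
    | terminal a =>
      refine ((ih (δ p a)).image (fun β' => Symbol.terminal a :: β')).subset (fun β' h => ?_)
      cases h with
      | term _ _ _ _ β' h => exact ⟨β', h, rfl⟩
    | nonterminal B =>
      refine (Set.finite_iUnion (fun r : Q => (ih r).image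
        (fun β' => Symbol.nonterminal (some (p, B, r)) :: β'))).subset (fun β' h => ?_)
      cases h with
      | nt _ r _ _ _ β' h => exact Set.mem_iUnion.2 ⟨r, β', h, rfl⟩

theorem CF.and_reg {α : Type} {P Q : List α → Prop} (hP : CF P) (hQ : Reg Q) :
    CF (fun w => P w ∧ Q w) := by
  obtain ⟨N, R, S, hR, hP⟩ := hP
  obtain ⟨Z, _, δ, q0, F, hQ⟩ := hQ
  let R' : Set (Option (Z × N × Z) × List (Symbol α (Option (Z × N × Z)))) :=
    ((fun q => (none, [Symbol.nonterminal (some (q0, S, q))])) '' {q | F q}) ∪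
    ⋃ r ∈ R, ⋃ p : Z, ⋃ q : Z, (fun β' => (some (p, r.1, q), β')) '' {β' | Ann δ p r.2 q β'}
  have hR' : R'.Finite := ((Set.toFinite _).image _).union (hR.biUnion (fun r _ =>
    Set.finite_iUnion (fun p => Set.finite_iUnion (fun q => (ann_finite δ _ p q).image _))))
  have h1 : ∀ β' w, Gen R' β' w → ∀ p β q, Ann δ p β q β' → Gen R β w ∧ w.foldl δ p = q := by
    intro β' w h
    induction h with
    | nil => intro p β q ha; cases ha; exact ⟨Gen.nil, rfl⟩
    | term a β' y _ ih =>
      intro p β q ha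
      cases ha with
      | term _ _ _ β _ ha =>
        obtain ⟨g, e⟩ := ih _ _ _ ha
        exact ⟨Gen.term a _ _ g, e⟩
    | nt X γ β' y1 y2 hr _ _ ih1 ih2 =>
      intro p β q ha
      cases ha with
      | nt _ r _ B β _ ha =>
        obtain ⟨g2, e2⟩ := ih2 _ _ _ ha
        simp only [R', Set.mem_union, Set.mem_image, Set.mem_iUnion, Prod.mk.injEq] at hr
        rcases hr with ⟨_, _, h, _⟩ | ⟨r0, hr0, p', q', β0, hβ0, h, rfl⟩
        · simp at h
        · simp only [Option.some.injEq, Prod.mk.injEq] at h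
          obtain ⟨rfl, rfl, rfl⟩ := h
          obtain ⟨g1, e1⟩ := ih1 _ _ _ hβ0
          exact ⟨Gen.nt _ _ _ _ _ hr0 g1 g2, by rw [List.foldl_append, e1, e2]⟩
  have h2 : ∀ β w, Gen R β w → ∀ p, ∃ β', Ann δ p β (w.foldl δ p) β' ∧ Gen R' β' w := by
    intro β w h
    induction h with
    | nil => intro p; exact ⟨[], Ann.nil p, Gen.nil⟩
    | term a β y _ ih =>
      intro p
      obtain ⟨β', ha, g⟩ := ih (δ p a)
      exact ⟨_, Ann.term _ _ a _ _ ha, Gen.term a _ _ g⟩
    | nt A γ β y1 y2 hr _ _ ih1 ih2 =>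
      intro p
      obtain ⟨γ', ha1, g1⟩ := ih1 p
      obtain ⟨β', ha2, g2⟩ := ih2 (y1.foldl δ p)
      rw [List.foldl_append]
      refine ⟨_, Ann.nt _ _ _ A _ _ ha2, Gen.nt _ γ' _ _ _ ?_ g1 g2⟩
      simp only [R', Set.mem_union, Set.mem_iUnion]
      exact Or.inr ⟨(A, γ), hr, p, _, γ', ha1, rfl⟩
  refine ⟨_, R', none, hR', fun w => ?_⟩
  beta_reduce
  rw [hP, hQ, gen_one_iff (R := R')]
  constructor
  · rintro ⟨g, hF⟩
    obtain ⟨β', ha, g'⟩ := h2 _ _ g q0
    cases ha with
    | nt _ r _ _ _ β' ha =>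
      generalize hq : w.foldl δ q0 = q at ha hF g'
      cases ha
      exact ⟨_, Or.inl ⟨_, hF, rfl⟩, g'⟩
  · rintro ⟨γ, hr, g⟩
    simp only [R', Set.mem_union, Set.mem_image, Set.mem_iUnion, Prod.mk.injEq] at hr
    rcases hr with ⟨q, hq, -, rfl⟩ | ⟨r0, hr0, p', q', β0, hβ0, h, rfl⟩
    · obtain ⟨g1, e⟩ := h1 _ _ g q0 [Symbol.nonterminal S] q (Ann.nt _ _ _ _ _ _ (Ann.nil q))
      exact ⟨g1, e ▸ hq⟩
    · simp at h

end Pool.Agent.Lib.helper29
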