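import Mathlib
import Pool.Agent.Lib.helper29.CFL

/-! More closure tools: regular predicates, iteration, pair languages, paths, brackets. -/

namespace Pool.Agent.Lib.helper29

section reg
variable {α : Type}

lemma Reg.congr {P Q : List α → Prop} (h : Reg P) (e : ∀ w, P w ↔ Q w) : Reg Q := by
  obtain ⟨Z, i, δ, q0, F, h⟩ := h
  exact ⟨Z, i, δ, q0, F, fun w => (e w).symm.trans (h w)⟩

lemma Reg.of_fold {Z : Type} [Finite Z] (f : List α → Z) (δ : Z → α → Z)
    (h : ∀ w a, f (w ++ [a]) = δ (f w) a) (F : Z → Prop) : Reg (fun w => F (f w)) := by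
  refine ⟨Z, inferInstance, δ, f [], F, fun w => ?_⟩
  have : f w = w.foldl δ (f []) := by
    induction w using List.reverseRecOn with
    | nil => rfl
    | append_singleton w a ih => rw [h, List.foldl_append, ← ih]; rfl
  beta_reduce
  rw [this]

lemma Reg.and {P Q : List α → Prop} (hP : Reg P) (hQ : Reg Q) : Reg (fun w => P w ∧ Q w) := by
  obtain ⟨Z, i, δ, q0, F, h⟩ := hP
  obtain ⟨Z', i', δ', q0', F', h'⟩ := hQ
  refine (Reg.of_fold (fun w => (w.foldl δ q0, w.foldl δ' q0'))
    (fun z a => (δ z.1 a, δ' z.2 a)) (fun w a => by simp) (fun z => F z.1 ∧ F' z.2)).congr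
    (fun w => by simp [h, h'])

lemma Reg.not {P : List α → Prop} (hP : Reg P) : Reg (fun w => ¬ P w) := by
  obtain ⟨Z, i, δ, q0, F, h⟩ := hP
  exact ⟨Z, i, δ, q0, fun z => ¬ F z, fun w => by simp [h]⟩

lemma Reg.or {P Q : List α → Prop} (hP : Reg P) (hQ : Reg Q) : Reg (fun w => P w ∨ Q w) :=
  (hP.not.and hQ.not).not.congr (fun w => by tauto)

lemma Reg.true : Reg (fun _ : List α => True) :=
  Reg.of_fold (fun _ => ()) (fun _ _ => ()) (fun _ _ => rfl) (fun _ => True)

lemma Reg.filterMap {β : Type} {P : List β → Prop} (hP : Reg P) (f : α → Option β) :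
    Reg (fun w : List α => P (w.filterMap f)) := by
  obtain ⟨Z, i, δ, q0, F, h⟩ := hP
  refine (Reg.of_fold (fun w : List α => (w.filterMap f).foldl δ q0)
    (fun z a => match f a with | none => z | some b => δ z b) (fun w a => ?_) F).congr
    (fun w => (h _).symm)
  rw [List.filterMap_append, List.foldl_append]
  cases hf : f a <;> simp [hf]

lemma Reg.count_eq [DecidableEq α] (a : α) (c : ℕ) : Reg (fun w : List α => w.count a = c) := by
  refine (Reg.of_fold (Z := Fin (c + 2)) (fun w => ⟨min (w.count a) (c + 1), by omega⟩)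
    (fun z b => ⟨min (z.1 + if b = a then 1 else 0) (c + 1), by omega⟩) (fun w b => ?_)
    (fun z => z.1 = c)).congr (fun w => ?_)
  · ext
    simp only [List.count_append, List.count_singleton, beq_iff_eq]
    split_ifs <;> omega
  · simp only; omega

lemma Reg.length_eq (c : ℕ) : Reg (fun w : List α => w.length = c) := by
  refine (Reg.of_fold (Z := Fin (c + 2)) (fun w => ⟨min w.length (c + 1), by omega⟩)
    (fun z _ => ⟨min (z.1 + 1) (c + 1), by omega⟩) (fun w b => ?_)
    (fun z => z.1 = c)).congr (fun w => ?_)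
  · ext
    simp only [List.length_append, List.length_singleton]
    omega
  · simp only; omega

lemma Reg.head [Finite α] (p : Option α → Prop) : Reg (fun w : List α => p w.head?) := by
  refine Reg.of_fold (fun w : List α => w.head?)
    (fun z a => match z with | none => some a | some b => some b) (fun w a => ?_) p
  cases w <;> simp

lemma Reg.last [Finite α] (p : Option α → Prop) : Reg (fun w : List α => p w.getLast?) :=
  Reg.of_fold (fun w : List α => w.getLast?) (fun _ a => some a) (fun w a => by simp) p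

lemma Reg.chain [Finite α] (r : α → α → Prop) : Reg (fun w : List α => w.IsChain r) := by
  refine (Reg.of_fold (fun w : List α => (w.getLast?, w.IsChain r))
    (fun z a => (some a, z.2 ∧ ∀ b ∈ z.1, r b a)) (fun w a => ?_) (fun z => z.2))
  simp [List.isChain_append]

lemma Reg.reverse [Finite α] {P : List α → Prop} (hP : Reg P) :
    Reg (fun w => P w.reverse) := by
  obtain ⟨Z, i, δ, q0, F, h⟩ := hP
  refine (Reg.of_fold (Z := Z → Z) (fun w q => w.reverse.foldl δ q) (fun g a q => g (δ q a))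
    (fun w a => ?_) (fun g => F (g q0))).congr (fun w => (h _).symm)
  funext q
  simp

end reg

section iter
variable {α : Type}

inductive Rep (P : List α → Prop) : ℕ → List α → Prop
  | nil : Rep P 0 []
  | cons (n : ℕ) (x w : List α) : P x → Rep P n w → Rep P (n + 1) (x ++ w)

lemma rep_zero {P : List α → Prop} {w : List α} : Rep P 0 w ↔ w = [] :=
  ⟨fun h => by cases h; rfl, fun h => h ▸ Rep.nil⟩

lemma rep_succ {P : List α → Prop} {n : ℕ} {w : List α} :
    Rep P (n + 1) w ↔ ∃ x y, P x ∧ Rep P n y ∧ w = x ++ y :=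
  ⟨fun h => by cases h with | cons n x w hx h => exact ⟨x, w, hx, h, rfl⟩,
    fun ⟨x, y, h1, h2, e⟩ => e ▸ Rep.cons n x y h1 h2⟩

lemma Rep.append {P : List α → Prop} {n m : ℕ} {v w : List α} (h1 : Rep P n v) (h2 : Rep P m w) :
    Rep P (n + m) (v ++ w) := by
  induction h1 with
  | nil => simpa using h2
  | cons n x y hx _ ih =>
    rw [List.append_assoc, Nat.add_right_comm]; exact Rep.cons _ _ _ hx ih

lemma Rep.split {P : List α → Prop} {n m : ℕ} {w : List α} (h : Rep P (n + m) w) :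
    ∃ v1 v2, Rep P n v1 ∧ Rep P m v2 ∧ w = v1 ++ v2 := by
  induction n generalizing w with
  | zero => exact ⟨[], w, Rep.nil, by simpa using h, rfl⟩
  | succ n ih =>
    rw [Nat.add_right_comm, rep_succ] at h
    obtain ⟨x, y, hx, hy, rfl⟩ := h
    obtain ⟨v1, v2, h1, h2, rfl⟩ := ih hy
    exact ⟨x ++ v1, v2, Rep.cons _ _ _ hx h1, h2, by simp⟩

lemma Rep.one {P : List α → Prop} {x : List α} (h : P x) : Rep P 1 x := by
  simpa using Rep.cons 0 x [] h Rep.nil

lemma Rep.snoc {P : List α → Prop} {n : ℕ} {x w : List α} (h : Rep P n w) (hx : P x) :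
    Rep P (n + 1) (w ++ x) := h.append (Rep.one hx)

lemma rep_succ' {P : List α → Prop} {n : ℕ} {w : List α} :
    Rep P (n + 1) w ↔ ∃ y x, Rep P n y ∧ P x ∧ w = y ++ x := by
  constructor
  · intro h
    obtain ⟨v1, v2, h1, h2, rfl⟩ := h.split
    obtain ⟨x, y, hx, hy, rfl⟩ := rep_succ.1 h2
    rw [rep_zero.1 hy]
    exact ⟨v1, x, h1, hx, by simp⟩
  · rintro ⟨y, x, hy, hx, rfl⟩; exact hy.snoc hx

lemma Rep.mono {P Q : List α → Prop} (hPQ : ∀ x, P x → Q x) {n : ℕ} {w : List α}
    (h : Rep P n w) : Rep Q n w := by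
  induction h with
  | nil => exact Rep.nil
  | cons n x y hx _ ih => exact Rep.cons _ _ _ (hPQ _ hx) ih

lemma CF.rep {P : List α → Prop} (h : CF P) (n : ℕ) : CF (Rep P n) := by
  induction n with
  | zero => exact (CF.single []).congr (fun w => rep_zero.symm)
  | succ n ih => exact (h.append ih).congr (fun w => rep_succ.symm)

inductive Path1 {σ : Type} (lab : σ → σ → List α → Prop) (fin : σ → List α → Prop) :
    σ → List α → Prop
  | stop (s : σ) (w : List α) : fin s w → Path1 lab fin s w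
  | step (s s' : σ) (x w : List α) : lab s s' x → Path1 lab fin s' w → Path1 lab fin s (x ++ w)

theorem CF.paths {σ : Type} {lab : σ → σ → List α → Prop} {fin : σ → List α → Prop}
    (good : Set σ) (hg : good.Finite) (hlab : ∀ s s', CF (lab s s')) (hfin : ∀ s, CF (fin s))
    (hsupp : ∀ s s' x, lab s s' x → s' ∈ good) (s0 : σ) : CF (Path1 lab fin s0) := by
  let rhs : σ → List (α ⊕ σ) → Prop := fun s δ => s ∈ insert s0 good ∧
    ((∃ v, fin s v ∧ δ = v.map Sum.inl) ∨
      ∃ s' ∈ good, ∃ x y, (∃ v, lab s s' v ∧ x = v.map Sum.inl) ∧ y = [Sum.inr s'] ∧ δ = x ++ y)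
  have hr : ∀ s, CF (rhs s) := fun s => CF.and_const _ (fun _ => ((hfin s).map _).or
    (CF.exists_mem hg (fun s' _ => ((hlab s s').map _).append (CF.single _))))
  have h1 : ∀ δ w, GenE rhs δ w → ∀ (v : List α), (δ = v.map Sum.inl → w = v) ∧
      (∀ s, δ = v.map Sum.inl ++ [Sum.inr s] → ∃ y, w = v ++ y ∧ Path1 lab fin s y) := by
    intro δ w h
    induction h with
    | nil => intro v; exact ⟨fun h => by simpa using h.symm, fun s h => by simp at h⟩
    | term a β y _ ih =>
      intro v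
      cases v with
      | nil => simp
      | cons b v =>
        simp only [List.map_cons, List.cons_append, List.cons.injEq, Sum.inl.injEq]
        refine ⟨fun h => ⟨h.1, (ih v).1 h.2⟩, fun s h => ?_⟩
        obtain ⟨y, rfl, hy⟩ := (ih v).2 s h.2
        exact ⟨y, ⟨h.1, rfl⟩, hy⟩
    | nt A γ β y1 y2 hr _ g2 ih1 _ =>
      intro v
      cases v with
      | cons b v => simp
      | nil =>
        simp only [List.map_nil, List.nil_append, List.cons.injEq, Sum.inr.injEq]
        refine ⟨fun h => by simp at h, fun s h => ?_⟩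
        obtain ⟨rfl, rfl⟩ := h
        rw [g2.of_nil]
        refine ⟨_, rfl, ?_⟩
        rcases hr.2 with ⟨v, hv, rfl⟩ | ⟨s', -, _, _, ⟨v, hv, rfl⟩, rfl, rfl⟩
        · rw [(ih1 v).1 rfl]; simpa using Path1.stop _ _ hv
        · obtain ⟨y, rfl, hy⟩ := (ih1 v).2 s' rfl
          simpa using Path1.step _ _ _ _ hv hy
  have h2 : ∀ s w, Path1 lab fin s w → s ∈ insert s0 good → GenE rhs [Sum.inr s] w := by
    intro s w h
    induction h with
    | stop s w hw => intro hs; exact (genE_terminals w).one ⟨hs, Or.inl ⟨w, hw, rfl⟩⟩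
    | step s s' x w hx _ ih =>
      intro hs
      have hs' := hsupp _ _ _ hx
      exact ((genE_terminals x).append (ih (Or.inr hs'))).one
        ⟨hs, Or.inr ⟨s', hs', _, _, ⟨x, hx, rfl⟩, rfl, rfl⟩⟩
  refine (cf_genE rhs hr ((hg.insert s0).subset (fun s ⟨_, h⟩ => h.1)) s0).congr (fun w => ?_)
  constructor
  · intro h
    obtain ⟨y, rfl, hy⟩ := (h1 _ _ h []).2 s0 rfl
    exact hy
  · intro h; exact h2 _ _ h (Or.inl rfl)

lemma CF.star {P : List α → Prop} (h : CF P) : CF (fun w => ∃ n, Rep P n w) := by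
  refine (CF.paths (σ := Unit) (lab := fun _ _ => P) (fin := fun _ w => w = []) Set.univ
    (Set.toFinite _) (fun _ _ => h) (fun _ => CF.single _) (fun _ _ _ _ => trivial) ()).congr
    (fun w => ?_)
  constructor
  · intro h
    generalize () = u at h
    induction h with
    | stop s w hw => exact ⟨0, hw ▸ Rep.nil⟩
    | step s s' x w hx _ ih => obtain ⟨n, hn⟩ := ih; exact ⟨_, Rep.cons _ _ _ hx hn⟩
  · rintro ⟨n, hn⟩
    induction hn with
    | nil => exact Path1.stop _ _ rfl
    | cons n x w hx _ ih => exact Path1.step _ _ _ _ hx ih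

lemma CF.letter [Finite α] (p : α → Prop) : CF (fun w : List α => ∃ a, p a ∧ w = [a]) :=
  CF.of_finite ((Set.finite_range (fun a : α => [a])).subset (fun _ ⟨a, _, h⟩ => ⟨a, h.symm⟩))

lemma rep_letter {w : List α} : Rep (fun x : List α => ∃ a, True ∧ x = [a]) w.length w := by
  induction w with
  | nil => exact Rep.nil
  | cons a w ih => exact Rep.cons _ [a] w ⟨a, trivial, rfl⟩ ih

lemma CF.univ [Finite α] : CF (fun _ : List α => True) :=
  (CF.letter (fun _ => True)).star.congr (fun w => ⟨fun _ => trivial, fun _ => ⟨_, rep_letter⟩⟩)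

lemma Reg.cf [Finite α] {P : List α → Prop} (h : Reg P) : CF P :=
  (CF.univ.and_reg h).congr (fun w => by simp)

inductive Bal (m : α → α → Prop) : List α → Prop
  | nil : Bal m []
  | node (o c : α) (x y : List α) : m o c → Bal m x → Bal m y → Bal m (o :: x ++ c :: y)

lemma CF.bal [Finite α] (m : α → α → Prop) : CF (Bal m) := by
  let rhs : Unit → List (α ⊕ Unit) → Prop := fun _ δ => δ = [] ∨
    ∃ o c, m o c ∧ δ = [Sum.inl o, Sum.inr (), Sum.inl c, Sum.inr ()]
  have hr : ∀ s, CF (rhs s) := fun s => (CF.single _).or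
    (CF.exists (fun o => CF.exists (fun c => CF.and_const _ (fun _ => CF.single _))))
  have h1 : ∀ δ w, GenE rhs δ w →
      Sub (fun (X : α ⊕ Unit) x => match X with | Sum.inl a => x = [a] | Sum.inr _ => Bal m x)
        δ w := by
    intro δ w h
    induction h with
    | nil => exact Sub.nil
    | term a β y _ ih => exact Sub.cons _ _ [a] _ rfl ih
    | nt A γ β y1 y2 hr _ _ ih1 ih2 =>
      refine Sub.cons _ _ _ _ ?_ ih2
      rcases hr with rfl | ⟨o, c, hm, rfl⟩
      · rw [sub_nil_iff.1 ih1]; exact Bal.nil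
      · simp only [sub_cons_iff, sub_nil_iff] at ih1
        obtain ⟨_, _, rfl, ⟨x, _, hx, ⟨_, _, rfl, ⟨y, _, hy, rfl, rfl⟩, rfl⟩, rfl⟩, rfl⟩ := ih1
        simpa using Bal.node o c x y hm hx hy
  refine (cf_genE rhs hr (Set.toFinite _) ()).congr (fun w => ?_)
  constructor
  · intro h
    have := h1 _ _ h
    simp only [sub_cons_iff, sub_nil_iff] at this
    obtain ⟨x, _, hx, rfl, rfl⟩ := this
    simpa using hx
  · intro h
    induction h with
    | nil => exact GenE.nil.one (Or.inl rfl)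
    | node o c x y hm _ _ ih1 ih2 =>
      refine GenE.one (Or.inr ⟨o, c, hm, rfl⟩) (GenE.term _ _ _ ?_)
      exact GenE.append (β1 := [Sum.inr ()]) ih1 (GenE.term _ _ _ ih2)

end iter

section pairs
variable {α β : Type}

def mkp (l : List α) (r : List β) : List (Option (α ⊕ β)) :=
  l.reverse.map (fun a => some (Sum.inl a)) ++ none :: r.map (fun b => some (Sum.inr b))

/-- Pairs of words that can be generated around a centre, nested from the inside out. -/
def CFP (P : List α → List β → Prop) : Prop :=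
  CF (fun w => ∃ l r, P l r ∧ w = mkp l r)

lemma CFP.congr {P Q : List α → List β → Prop} (h : CFP P) (e : ∀ l r, P l r ↔ Q l r) :
    CFP Q := CF.congr h (fun w => by simp only [e])

lemma CFP.prod {A : List α → Prop} {B : List β → Prop} (hA : CF A) (hB : CF B) :
    CFP (fun l r => A l ∧ B r) := by
  refine CF.congr ((hA.reverse.map (fun a => some (Sum.inl a))).append
    ((CF.single [none]).append (hB.map (fun b => some (Sum.inr b))))) (fun w => ?_)
  constructor
  · rintro ⟨_, _, ⟨l, hl, rfl⟩, ⟨_, _, rfl, ⟨r, hr, rfl⟩, rfl⟩, rfl⟩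
    exact ⟨l.reverse, r, ⟨hl, hr⟩, by simp [mkp]⟩
  · rintro ⟨l, r, ⟨hl, hr⟩, rfl⟩
    exact ⟨_, _, ⟨l.reverse, by simpa using hl, rfl⟩, ⟨_, _, rfl, ⟨r, hr, rfl⟩, rfl⟩, rfl⟩

lemma sub_map_single {γ δ : Type} {σ : γ → List δ → Prop} {ι : Type} (f : ι → γ) (g : ι → δ)
    (h : ∀ i x, σ (f i) x ↔ x = [g i]) (v : List ι) (w : List δ) :
    Sub σ (v.map f) w ↔ w = v.map g := by
  induction v generalizing w with
  | nil => simp [sub_nil_iff]
  | cons i v ih =>
    simp only [List.map_cons, sub_cons_iff, h, ih]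
    constructor
    · rintro ⟨_, _, rfl, rfl, rfl⟩; rfl
    · rintro rfl; exact ⟨_, _, rfl, rfl, rfl⟩

lemma CFP.close [Finite α] [Finite β] {γ : Type} {P : List α → List β → Prop} (h : CFP P)
    (f : α → γ) (g : β → γ) {L : List γ → Prop} (hL : CF L) :
    CF (fun w => ∃ l m r, P l r ∧ L m ∧ w = l.reverse.map f ++ m ++ r.map g) := by
  let σ : Option (α ⊕ β) → List γ → Prop := fun X x =>
    match X with
    | none => L x
    | some (Sum.inl a) => x = [f a]
    | some (Sum.inr b) => x = [g b]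
  have hσ : ∀ X, CF (σ X) := by
    rintro (_ | a | b)
    · exact hL
    · exact CF.single _
    · exact CF.single _
  have key : ∀ l r w, Sub σ (mkp l r) w ↔ ∃ m, L m ∧ w = l.reverse.map f ++ m ++ r.map g := by
    intro l r w
    have e1 := sub_map_single (σ := σ) (fun a => some (Sum.inl a)) f (fun _ _ => Iff.rfl)
    have e2 := sub_map_single (σ := σ) (fun b => some (Sum.inr b)) g (fun _ _ => Iff.rfl)
    constructor
    · intro h
      obtain ⟨w1, w2, rfl, h1, h2⟩ := Sub.split h
      obtain ⟨m, w3, hm, h3, rfl⟩ := sub_cons_iff.1 h2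
      exact ⟨m, hm, by rw [(e1 _ _).1 h1, (e2 _ _).1 h3]; simp⟩
    · rintro ⟨m, hm, rfl⟩
      rw [List.append_assoc]
      exact Sub.append ((e1 _ _).2 rfl) (Sub.cons _ _ _ _ hm ((e2 _ _).2 rfl))
  refine (CF.subst h hσ).congr (fun w => ?_)
  constructor
  · rintro ⟨_, ⟨l, r, hP, rfl⟩, hs⟩
    obtain ⟨m, hm, rfl⟩ := (key _ _ _).1 hs
    exact ⟨l, m, r, hP, hm, rfl⟩
  · rintro ⟨l, m, r, hP, hm, rfl⟩
    exact ⟨_, ⟨l, r, hP, rfl⟩, (key _ _ _).2 ⟨m, hm, rfl⟩⟩

lemma mkp_append (l1 l2 : List α) (r1 r2 : List β) : mkp (l1 ++ l2) (r1 ++ r2) =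
    l2.reverse.map (fun a => some (Sum.inl a)) ++ mkp l1 r1 ++
      r2.map (fun b => some (Sum.inr b)) := by
  simp [mkp]

lemma CFP.comp [Finite α] [Finite β] {P Q : List α → List β → Prop} (hP : CFP P) (hQ : CFP Q) :
    CFP (fun l r => ∃ l1 l2 r1 r2, P l1 r1 ∧ Q l2 r2 ∧ l = l1 ++ l2 ∧ r = r1 ++ r2) := by
  refine CF.congr (hQ.close (fun a => some (Sum.inl a)) (fun b => some (Sum.inr b)) hP)
    (fun w => ?_)
  constructor
  · rintro ⟨l2, _, r2, h2, ⟨l1, r1, h1, rfl⟩, rfl⟩
    exact ⟨_, _, ⟨l1, l2, r1, r2, h1, h2, rfl, rfl⟩, (mkp_append _ _ _ _).symm⟩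
  · rintro ⟨_, _, ⟨l1, l2, r1, r2, h1, h2, rfl, rfl⟩, rfl⟩
    exact ⟨l2, _, r2, h2, ⟨l1, r1, h1, rfl⟩, mkp_append _ _ _ _⟩

lemma CFP.exists {ι : Type} [Finite ι] {P : ι → List α → List β → Prop} (h : ∀ i, CFP (P i)) :
    CFP (fun l r => ∃ i, P i l r) :=
  CF.congr (CF.exists h) (fun w => by tauto)

lemma CFP.exists_mem {ι : Type} {s : Set ι} (hs : s.Finite) {P : ι → List α → List β → Prop}
    (h : ∀ i ∈ s, CFP (P i)) : CFP (fun l r => ∃ i ∈ s, P i l r) :=
  CF.congr (CF.exists_mem hs h) (fun w => by tauto)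

lemma CFP.or {P Q : List α → List β → Prop} (hP : CFP P) (hQ : CFP Q) :
    CFP (fun l r => P l r ∨ Q l r) :=
  CF.congr (CF.or hP hQ) (fun w => by aesop)

lemma CFP.and_const {P : List α → List β → Prop} (p : Prop) (h : p → CFP P) :
    CFP (fun l r => p ∧ P l r) :=
  CF.congr (CF.and_const p h) (fun w => by tauto)

lemma CFP.swap {P : List α → List β → Prop} (h : CFP P) : CFP (fun r l => P l r) := by
  refine CF.congr ((CF.reverse h).map (Option.map Sum.swap)) (fun w => ?_)
  constructor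
  · rintro ⟨v, ⟨l, r, hP, e⟩, rfl⟩
    refine ⟨r, l, hP, ?_⟩
    rw [← List.reverse_reverse v, e]
    simp [mkp, Function.comp_def]
  · rintro ⟨r, l, hP, rfl⟩
    exact ⟨(mkp l r).reverse, ⟨l, r, hP, by simp⟩, by simp [mkp, Function.comp_def]⟩

lemma mkp_right (l : List α) (r : List β) :
    (mkp l r).filterMap (fun X => X.bind Sum.getRight?) = r := by
  simp [mkp, List.filterMap_append, List.filterMap_map, Function.comp_def]

lemma CFP.regR {P : List α → List β → Prop} (h : CFP P) {B : List β → Prop} (hB : Reg B) :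
    CFP (fun l r => P l r ∧ B r) := by
  refine CF.congr (CF.and_reg h (hB.filterMap (fun X => X.bind Sum.getRight?))) (fun w => ?_)
  constructor
  · rintro ⟨⟨l, r, hP, rfl⟩, hb⟩
    rw [mkp_right] at hb
    exact ⟨l, r, ⟨hP, hb⟩, rfl⟩
  · rintro ⟨l, r, ⟨hP, hb⟩, rfl⟩
    exact ⟨⟨l, r, hP, rfl⟩, by rw [mkp_right]; exact hb⟩

lemma CFP.regL {P : List α → List β → Prop} (h : CFP P) {A : List α → Prop} (hA : Reg A) :
    CFP (fun l r => P l r ∧ A l) := (h.swap.regR hA).swap

inductive Path2 {σ : Type} (lab : σ → σ → List α → List β → Prop)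
    (fin : σ → List α → List β → Prop) : σ → List α → List β → Prop
  | stop (s : σ) (l r) : fin s l r → Path2 lab fin s l r
  | step (s s' : σ) (l r l' r') : lab s s' l r → Path2 lab fin s' l' r' →
      Path2 lab fin s (l ++ l') (r ++ r')

inductive Pre2 {σ : Type} (lab : σ → σ → List α → List β → Prop) (s0 : σ) :
    σ → List α → List β → Prop
  | base : Pre2 lab s0 s0 [] []
  | step (s s' : σ) (l r l' r') : Pre2 lab s0 s l r → lab s s' l' r' →
      Pre2 lab s0 s' (l ++ l') (r ++ r')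

lemma cfp_pre2 {σ : Type} {lab : σ → σ → List α → List β → Prop}
    (good : Set σ) (hg : good.Finite) (hlab : ∀ s s', CFP (lab s s'))
    (hsupp : ∀ s s' l r, lab s s' l r → s' ∈ good) (s0 s1 : σ) : CFP (Pre2 lab s0 s1) := by
  let em : σ → Option (α ⊕ β) → Option (α ⊕ β) ⊕ σ := fun s X =>
    match X with | none => Sum.inr s | some c => Sum.inl (some c)
  let rhs : σ → List (Option (α ⊕ β) ⊕ σ) → Prop := fun s' δ => s' ∈ insert s0 good ∧
    ((s' = s0 ∧ δ = [Sum.inl none]) ∨
      ∃ s ∈ insert s0 good, ∃ v, (∃ l r, lab s s' l r ∧ v = mkp l r) ∧ δ = v.map (em s))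
  have hr : ∀ s, CF (rhs s) := fun s => CF.and_const _ (fun _ =>
    (CF.and_const _ (fun _ => CF.single _)).or
      (CF.exists_mem (hg.insert s0) (fun s' _ => CF.map (hlab s' s) _)))
  have hem : ∀ s (l : List α) (r : List β), (mkp l r).map (em s) =
      (l.reverse.map (fun a => some (Sum.inl a))).map Sum.inl ++ Sum.inr s ::
        (r.map (fun b => some (Sum.inr b))).map Sum.inl := by
    intro s l r
    simp [mkp, em, Function.comp_def]
  have h1 : ∀ δ w, GenE rhs δ w →
      Sub (fun (X : Option (α ⊕ β) ⊕ σ) x => match X with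
        | Sum.inl a => x = [a] | Sum.inr s => ∃ l r, Pre2 lab s0 s l r ∧ x = mkp l r) δ w := by
    intro δ w h
    induction h with
    | nil => exact Sub.nil
    | term a β y _ ih => exact Sub.cons _ _ [a] _ rfl ih
    | nt A γ β y1 y2 hr _ _ ih1 ih2 =>
      refine Sub.cons _ _ _ _ ?_ ih2
      rcases hr.2 with ⟨rfl, rfl⟩ | ⟨s, -, _, ⟨l, r, hl, rfl⟩, rfl⟩
      · simp only [sub_cons_iff, sub_nil_iff] at ih1
        obtain ⟨_, _, rfl, rfl, rfl⟩ := ih1
        exact ⟨[], [], Pre2.base, rfl⟩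
      · rw [hem] at ih1
        obtain ⟨w1, w2, rfl, g1, g2⟩ := ih1.split
        obtain ⟨_, w3, ⟨l0, r0, h0, rfl⟩, g3, rfl⟩ := sub_cons_iff.1 g2
        rw [(sub_map_single Sum.inl id (fun _ _ => Iff.rfl) _ _).1 g1,
          (sub_map_single Sum.inl id (fun _ _ => Iff.rfl) _ _).1 g3]
        exact ⟨_, _, Pre2.step _ _ _ _ _ _ h0 hl, by rw [mkp_append]; simp⟩
  have h2 : ∀ s l r, Pre2 lab s0 s l r → s ∈ insert s0 good ∧ GenE rhs [Sum.inr s] (mkp l r) := by
    intro s l r h
    induction h with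
    | base =>
      exact ⟨Or.inl rfl, (GenE.term none _ _ GenE.nil).one ⟨Or.inl rfl, Or.inl ⟨rfl, rfl⟩⟩⟩
    | step s s' l r l' r' _ hl ih =>
      have hs' : s' ∈ insert s0 good := Or.inr (hsupp _ _ _ _ hl)
      refine ⟨hs', GenE.one ⟨hs', Or.inr ⟨s, ih.1, _, ⟨l', r', hl, rfl⟩, rfl⟩⟩ ?_⟩
      rw [hem, mkp_append, List.append_assoc]
      exact (genE_terminals _).append (GenE.append (β1 := [Sum.inr s]) ih.2 (genE_terminals _))
  refine (cf_genE rhs hr ((hg.insert s0).subset (fun s ⟨_, h⟩ => h.1)) s1).congr (fun w => ?_)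
  constructor
  · intro h
    have := h1 _ _ h
    simp only [sub_cons_iff, sub_nil_iff] at this
    obtain ⟨x, _, hx, rfl, rfl⟩ := this
    simpa using hx
  · rintro ⟨l, r, h, rfl⟩; exact (h2 _ _ _ h).2

theorem CFP.paths [Finite α] [Finite β] {σ : Type} {lab : σ → σ → List α → List β → Prop}
    {fin : σ → List α → List β → Prop}
    (good : Set σ) (hg : good.Finite) (hlab : ∀ s s', CFP (lab s s')) (hfin : ∀ s, CFP (fin s))
    (hsupp : ∀ s s' l r, lab s s' l r → s' ∈ good) (s0 : σ) : CFP (Path2 lab fin s0) := by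
  refine (CFP.exists_mem (hg.insert s0) (fun s _ =>
    (cfp_pre2 good hg hlab hsupp s0 s).comp (hfin s))).congr (fun l r => ?_)
  constructor
  · rintro ⟨s, -, l1, l2, r1, r2, h1, h2, rfl, rfl⟩
    have h3 : Path2 lab fin s l2 r2 := Path2.stop _ _ _ h2
    clear h2
    induction h1 generalizing l2 r2 with
    | base => exact h3
    | step s s' l r l' r' _ hl ih =>
      rw [List.append_assoc, List.append_assoc]
      exact ih _ _ (Path2.step _ _ _ _ _ _ hl h3)
  · intro h
    have : ∀ s l r, Path2 lab fin s l r → ∀ l0 r0, Pre2 lab s0 s l0 r0 → s ∈ insert s0 good →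
        ∃ s ∈ insert s0 good, ∃ l1 l2 r1 r2, Pre2 lab s0 s l1 r1 ∧ fin s l2 r2 ∧
          l0 ++ l = l1 ++ l2 ∧ r0 ++ r = r1 ++ r2 := by
      intro s l r h
      induction h with
      | stop s l r hf => intro l0 r0 h0 hs; exact ⟨s, hs, l0, l, r0, r, h0, hf, rfl, rfl⟩
      | step s s' l r l' r' hl _ ih =>
        intro l0 r0 h0 _
        rw [← List.append_assoc, ← List.append_assoc]
        exact ih _ _ (Pre2.step _ _ _ _ _ _ h0 hl) (Or.inr (hsupp _ _ _ _ hl))
    simpa using this _ _ _ h [] [] Pre2.base (Or.inl rfl)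

lemma CFP.star [Finite α] [Finite β] {A : List α → Prop} {B : List β → Prop}
    (hA : CF A) (hB : CF B) : CFP (fun l r => ∃ n, Rep A n l ∧ Rep B n r) := by
  refine (CFP.paths (σ := Unit) (lab := fun _ _ l r => A l ∧ B r)
    (fin := fun _ l r => l = [] ∧ r = []) Set.univ (Set.toFinite _)
    (fun _ _ => CFP.prod hA hB) (fun _ => CFP.prod (CF.single _) (CF.single _))
    (fun _ _ _ _ _ => trivial) ()).congr (fun l r => ?_)
  constructor
  · intro h
    generalize () = u at h
    induction h with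
    | stop s l r hw => exact ⟨0, hw.1 ▸ Rep.nil, hw.2 ▸ Rep.nil⟩
    | step s s' l r l' r' hx _ ih =>
      obtain ⟨n, h1, h2⟩ := ih
      exact ⟨_, Rep.cons _ _ _ hx.1 h1, Rep.cons _ _ _ hx.2 h2⟩
  · rintro ⟨n, h1, h2⟩
    induction h1 generalizing r with
    | nil => exact Path2.stop _ _ _ ⟨rfl, rep_zero.1 h2⟩
    | cons n x w hx _ ih =>
      obtain ⟨y, z, hy, hz, rfl⟩ := rep_succ.1 h2
      exact Path2.step _ _ _ _ _ _ ⟨hx, hy⟩ (ih _ hz)

lemma Rep.length_letter {n : ℕ} {w : List α} (h : Rep (fun x : List α => ∃ a, True ∧ x = [a]) n w) :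
    w.length = n := by
  induction h with
  | nil => rfl
  | cons n x w hx _ ih => obtain ⟨a, -, rfl⟩ := hx; simp [ih]

lemma CFP.eqlen [Finite α] [Finite β] : CFP (fun (l : List α) (r : List β) => l.length = r.length) := by
  refine (CFP.star (CF.letter (fun _ => True)) (CF.letter (fun _ => True))).congr (fun l r => ?_)
  constructor
  · rintro ⟨n, h1, h2⟩; rw [h1.length_letter, h2.length_letter]
  · intro h; exact ⟨_, rep_letter, h ▸ rep_letter⟩

end pairs

end Pool.Agent.Lib.helper29
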